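import Pool.Agent.Lib.MP_a97014_co.Topes

set_option autoImplicit false

namespace Pool.Agent.Results.MP_a97014_co.Roudneff

open Pool.Agent.Lib.MP_a97014_co

/-- Roudneff's bound on the number of complete cells of a uniform oriented matroid. -/
theorem result (d n : ℕ) (hd : 2 ≤ d) (hn : 2 * d + 1 ≤ n) (χ : (Fin (d + 1) → Fin n) → ℤ)
    (hχ : UniformChirotope χ) :
    (completeCells χ).encard ≤ ((∑ i ∈ Finset.range (d - 1), (n - 1).choose i : ℕ) : ℕ∞) := by
  obtain ⟨h1, h2⟩ := hχ.ncard_le hd hn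
  rw [← h1.cast_ncard_eq]
  exact_mod_cast h2

end Pool.Agent.Results.MP_a97014_co.Roudneff
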