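import Pool.Agent.Lib.MP_a97014_co.EqChi
import Pool.Agent.Lib.MP_a97014_co.EqDual

set_option autoImplicit false

namespace Pool.Agent.Results.MP_a97014_co.Uniqueness

open Pool.Agent.Lib.MP_a97014_co

/-- The equality case of Roudneff's bound: only the cyclic arrangement attains it. -/
theorem result (d n : ℕ) (hd : 2 ≤ d) (hn : 2 * d + 1 ≤ n) (h3 : ¬ (d = 3 ∧ n = 7))
    (h4 : ¬ (d = 4 ∧ n = 9)) (χ : (Fin (d + 1) → Fin n) → ℤ) (hχ : UniformChirotope χ)
    (hc : (completeCells χ).encard = ((∑ i ∈ Finset.range (d - 1), (n - 1).choose i : ℕ) : ℕ∞)) :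
    ∃ (π : Equiv.Perm (Fin n)) (ε : Fin n → ℤ) (s : ℤ), (∀ i, ε i = 1 ∨ ε i = -1) ∧
      (s = 1 ∨ s = -1) ∧
      ∀ x : Fin (d + 1) → Fin n, StrictMono x → χ (π ∘ x) = s * ∏ i, ε (x i) := by
  obtain ⟨m, rfl⟩ : ∃ m, d = m + 1 + 1 := ⟨d - 2, by omega⟩
  have h1 : (completeCells χ).ncard = ∑ i ∈ Finset.range (m + 1), (n - 1).choose i := by
    rw [Set.ncard_def, hc]
    rfl
  have h2 := hχ.two_mul_ncard_le (by omega) (by omega)
  rw [h1] at h2
  refine alternating_of_cond hχ (by omega) fun A hA => ?_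
  by_cases h5 : 2 * (m + 2) + 2 ≤ n
  · exact exists_cond (α := Fin n) hχ.sig_Sig (by rw [Fintype.card_fin]; omega)
      (by rw [Fintype.card_fin]; exact h2) A hA
  rcases Nat.eq_zero_or_pos m with rfl | hm
  · obtain rfl := Finset.card_eq_zero.1 hA
    obtain ⟨T, hT⟩ := Finset.card_pos.1 (lt_of_lt_of_le (by simp) h2)
    exact ⟨T, by rw [Finset.sdiff_empty]; exact (mem_KK.1 hT).2⟩
  · exact exists_cond_odd (α := Fin n) (by omega) hχ.sig_Sig (by rw [Fintype.card_fin]; omega)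
      (by rw [Fintype.card_fin]; exact h2) A hA

end Pool.Agent.Results.MP_a97014_co.Uniqueness
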